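import Mathlib
import Pool.Agent.H12.Prism

set_option autoImplicit false

namespace Pool.Agent.Results.MP_dabcc5_co.NotSupersolvable

open scoped Classical Matroid
open Pool.Agent.H12.Tang

/-- Not every normal tangential k-block is supersolvable. -/
theorem result :
    ¬ ∀ (F : Type) [Field F] [Fintype F] (k : ℕ), 1 ≤ k →
      ∀ (α : Type) [Fintype α] (M : Matroid α), Rep F M → Simple M →
        (∀ j, 1 ≤ j → j ≤ k → chi M ((Fintype.card F : ℤ) ^ j) ≤ 0) →
        (∀ N : Matroid α, N <m M → N.Loopless →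
          ∃ j, 1 ≤ j ∧ j ≤ k ∧ 0 < chi N ((Fintype.card F : ℤ) ^ j)) →
        SimpQuot (Fintype.card F ^ k + 1) M → Supersolvable M := by
  intro h
  have := Pool.Agent.H12.Prism.fact5
  have h1 := h (ZMod 5) 1 le_rfl (Fin 10) Pool.Agent.H12.Prism.M
    ⟨3, Pool.Agent.H12.Prism.v, Pool.Agent.H12.Prism.hv⟩ Pool.Agent.H12.Prism.simple
    (fun j _ hj => Pool.Agent.H12.Prism.block j hj)
    (by
      intro N hN hl
      obtain ⟨C, D, -, -, hne, rfl⟩ := strict_minor_form hN
      exact ⟨1, le_rfl, le_rfl, Pool.Agent.H12.Prism.minor_pos hne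
        (fun e he => (Matroid.isNonloop_of_loopless he).indep)⟩)
    Pool.Agent.H12.Prism.normal
  obtain ⟨H, h2, h3⟩ := supersolvable_hyperplane Pool.Agent.H12.Prism.hv
    Pool.Agent.H12.Prism.simple ⟨0, Pool.Agent.H12.Prism.mem_E 0⟩ h1
  exact Pool.Agent.H12.Prism.no_modular h2 h3

end Pool.Agent.Results.MP_dabcc5_co.NotSupersolvable
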